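import Pool.Agent.Helper42.RZ.St.S3

/-! # RZ-S4: random half spaces -/

set_option autoImplicit false

open MeasureTheory Set Metric Filter Topology
open scoped ENNReal

namespace Pool.Agent.Helper59.RZ

open Pool.Agent.Helper42.RZ

noncomputable def nu : Measure ℝ := (2 : ℝ≥0∞)⁻¹ • (volume : Measure ℝ).restrict (Ioc (-1) 1)

instance : IsProbabilityMeasure nu := by
  refine ⟨?_⟩
  rw [nu, Measure.smul_apply, Measure.restrict_apply_univ, Real.volume_Ioc, smul_eq_mul]
  norm_num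
  exact ENNReal.inv_mul_cancel (by norm_num) (by norm_num)

theorem plm_eq : plm = sig.prod nu := rfl

instance : IsProbabilityMeasure plm := by
  rw [plm_eq]; infer_instance

theorem measurableSet_hs : MeasurableSet {q : (E3 × ℝ) × E3 | q.2 ∈ hs q.1} := by
  change MeasurableSet {q : (E3 × ℝ) × E3 | q.1.2 < inner ℝ q.1.1 q.2}
  exact measurableSet_lt (by fun_prop) (Continuous.measurable (by fun_prop))

theorem measurableSet_mem (x : E3) : MeasurableSet {ω : E3 × ℝ | x ∈ hs ω} := by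
  change MeasurableSet {q : E3 × ℝ | q.2 < inner ℝ q.1 x}
  exact measurableSet_lt (by fun_prop) (Continuous.measurable (by fun_prop))

theorem measurableSet_iff (x y : E3) : MeasurableSet {ω : E3 × ℝ | x ∈ hs ω ↔ y ∈ hs ω} := by
  have : {ω : E3 × ℝ | x ∈ hs ω ↔ y ∈ hs ω} =
      ({ω : E3 × ℝ | x ∈ hs ω} ∩ {ω : E3 × ℝ | y ∈ hs ω}) ∪
        ({ω : E3 × ℝ | x ∈ hs ω}ᶜ ∩ {ω : E3 × ℝ | y ∈ hs ω}ᶜ) := by
    ext ω
    simp only [mem_union, mem_inter_iff, mem_compl_iff, Set.mem_ofPred_eq]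
    tauto
  rw [this]
  exact ((measurableSet_mem x).inter (measurableSet_mem y)).union
    ((measurableSet_mem x).compl.inter (measurableSet_mem y).compl)

theorem hasDerivAt_mul_abs (z : ℝ) : HasDerivAt (fun z : ℝ => z * |z|) (2 * |z|) z := by
  rcases lt_trichotomy z 0 with h | h | h
  · have h1 : HasDerivAt (fun z : ℝ => -(z * z)) (2 * |z|) z := by
      rw [abs_of_neg h]
      have h2 := ((hasDerivAt_id' z).mul (hasDerivAt_id' z)).neg
      have e : -(1 * z + z * 1) = 2 * -z := by ring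
      rw [e] at h2
      exact h2
    refine h1.congr_of_eventuallyEq ?_
    filter_upwards [Iio_mem_nhds h] with w hw
    rw [abs_of_neg hw]
    ring
  · subst h
    rw [hasDerivAt_iff_isLittleO]
    simp only [abs_zero, mul_zero, sub_zero, smul_zero]
    rw [Asymptotics.isLittleO_iff]
    intro c hc
    filter_upwards [Metric.ball_mem_nhds (0 : ℝ) hc] with w hw
    rw [mem_ball_zero_iff, Real.norm_eq_abs] at hw
    rw [Real.norm_eq_abs, Real.norm_eq_abs, abs_mul, abs_abs]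
    exact mul_le_mul_of_nonneg_right hw.le (abs_nonneg _)
  · have h1 : HasDerivAt (fun z : ℝ => z * z) (2 * |z|) z := by
      rw [abs_of_pos h]
      have h2 := (hasDerivAt_id' z).mul (hasDerivAt_id' z)
      have e : (1 * z + z * 1) = 2 * z := by ring
      rw [e] at h2
      exact h2
    refine h1.congr_of_eventuallyEq ?_
    filter_upwards [Ioi_mem_nhds h] with w hw
    rw [abs_of_pos hw]

theorem bg_lin (d : ℝ) : bg (fun r => d / 2 * |1 - r ^ 2 / 2|) = d / 4 := by
  have hd : ∀ r ∈ uIcc (0 : ℝ) 2, HasDerivAt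
      (fun r : ℝ => -(d / 8) * ((1 - r ^ 2 / 2) * |1 - r ^ 2 / 2|))
      (d / 2 * |1 - r ^ 2 / 2| * (r / 2)) r := by
    intro r _
    have h1 : HasDerivAt (fun r : ℝ => 1 - r ^ 2 / 2) (-r) r := by
      have h2 := ((hasDerivAt_pow 2 r).div_const 2).const_sub 1
      have e : -((2 : ℕ) * r ^ (2 - 1) / 2) = -r := by norm_num
      rw [e] at h2
      exact h2
    have h2 := (hasDerivAt_mul_abs (1 - r ^ 2 / 2)).comp r h1
    have h3 := h2.const_mul (-(d / 8))
    have e : -(d / 8) * (2 * |1 - r ^ 2 / 2| * -r) = d / 2 * |1 - r ^ 2 / 2| * (r / 2) := by ring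
    rw [e] at h3
    exact h3
  rw [bg, intervalIntegral.integral_eq_sub_of_hasDerivAt hd]
  · norm_num
    ring
  · exact Continuous.intervalIntegrable (by fun_prop) _ _

theorem nu_section {u x y : E3} (hu : ‖u‖ = 1) (hx : ‖x‖ = 1) (hy : ‖y‖ = 1) :
    nu (Prod.mk u ⁻¹' {ω : E3 × ℝ | x ∈ hs ω ↔ y ∈ hs ω}ᶜ) =
      ENNReal.ofReal (|inner ℝ u x - inner ℝ u y| / 2) := by
  have b1 : |inner ℝ u x| ≤ 1 := by
    have := abs_real_inner_le_norm u x
    rwa [hu, hx, one_mul] at this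
  have b2 : |inner ℝ u y| ≤ 1 := by
    have := abs_real_inner_le_norm u y
    rwa [hu, hy, one_mul] at this
  rw [abs_le] at b1 b2
  set a : ℝ := inner ℝ u x
  set b : ℝ := inner ℝ u y
  have hset : (Prod.mk u ⁻¹' {ω : E3 × ℝ | x ∈ hs ω ↔ y ∈ hs ω}ᶜ) = Ico (min a b) (max a b) := by
    ext τ
    change (¬ (τ < a ↔ τ < b)) ↔ _
    rw [mem_Ico, min_le_iff, lt_max_iff]
    constructor
    · intro h
      by_cases h1 : τ < a
      · have h2 : ¬ τ < b := fun h2 => h ⟨fun _ => h2, fun _ => h1⟩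
        exact ⟨Or.inr (not_lt.1 h2), Or.inl h1⟩
      · have h2 : τ < b := by
          by_contra h2
          exact h ⟨fun h3 => absurd h3 h1, fun h3 => absurd h3 h2⟩
        exact ⟨Or.inl (not_lt.1 h1), Or.inr h2⟩
    · rintro ⟨h1, h2⟩ h3
      rcases h1 with h1 | h1
      · have : ¬ τ < a := not_lt.2 h1
        rcases h2 with h2 | h2
        · exact this h2
        · exact this (h3.2 h2)
      · have : ¬ τ < b := not_lt.2 h1
        rcases h2 with h2 | h2
        · exact this (h3.1 h2)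
        · exact this h2
  rw [hset, nu, Measure.smul_apply, Measure.restrict_apply measurableSet_Ico, smul_eq_mul]
  have h1 : volume (Ico (min a b) (max a b) ∩ Ioc (-1) 1) = ENNReal.ofReal (max a b - min a b) := by
    rw [← Real.volume_Ioo]
    refine le_antisymm ?_ ?_
    · rw [Real.volume_Ioo, ← Real.volume_Ico]
      exact measure_mono inter_subset_left
    · refine measure_mono ?_
      intro t ht
      refine ⟨⟨ht.1.le, ht.2⟩, ?_, ?_⟩
      · exact lt_of_le_of_lt (le_min b1.1 b2.1) ht.1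
      · exact ht.2.le.trans (max_le b1.2 b2.2)
  rw [h1, max_sub_min_eq_abs, ← ENNReal.ofReal_ofNat, ← ENNReal.ofReal_inv_of_pos (by norm_num),
    ← ENNReal.ofReal_mul (by norm_num), abs_sub_comm]
  congr 1
  ring

theorem plane_real {x y : E3} (hx : ‖x‖ = 1) (hy : ‖y‖ = 1) :
    plm.real {ω | x ∈ hs ω ↔ y ∈ hs ω} = 1 - ‖x - y‖ / 4 := by
  obtain ⟨e, he, hxe⟩ : ∃ e : E3, ‖e‖ = 1 ∧ x - y = ‖x - y‖ • e := by
    by_cases h : x - y = 0
    · exact ⟨x, hx, by rw [h]; simp⟩
    · refine ⟨‖x - y‖⁻¹ • (x - y), ?_, ?_⟩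
      · rw [norm_smul, norm_inv, norm_norm, inv_mul_cancel₀ (norm_ne_zero_iff.2 h)]
      · rw [smul_smul, mul_inv_cancel₀ (norm_ne_zero_iff.2 h), one_smul]
  have hm := measurableSet_iff x y
  have hc : plm.real {ω : E3 × ℝ | x ∈ hs ω ↔ y ∈ hs ω}ᶜ = ‖x - y‖ / 4 := by
    have hk : Measurable (fun r : ℝ => ‖x - y‖ / 2 * |1 - r ^ 2 / 2|) :=
      Continuous.measurable (by fun_prop)
    have h1 : plm {ω : E3 × ℝ | x ∈ hs ω ↔ y ∈ hs ω}ᶜ =
        ∫⁻ u, ENNReal.ofReal (‖x - y‖ / 2 * |1 - ‖e - u‖ ^ 2 / 2|) ∂sig := by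
      rw [plm_eq, Measure.prod_apply hm.compl]
      refine lintegral_congr_ae ?_
      filter_upwards [ae_norm_sig] with u hu
      rw [nu_section hu hx hy, ← inner_sub_right, hxe, inner_smul_right, abs_mul,
        norm_smul, he, mul_one, norm_norm, abs_norm]
      congr 1
      have : (inner ℝ u e : ℝ) = 1 - ‖e - u‖ ^ 2 / 2 := by
        rw [norm_sub_sq_real, he, hu, real_inner_comm]
        ring
      rw [this]
      ring
    rw [Measure.real, h1, ← integral_eq_lintegral_of_nonneg_ae, integral_dist he hk, bg_lin]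
    · exact Filter.Eventually.of_forall fun u => by positivity
    · exact (hk.comp (by fun_prop)).aestronglyMeasurable
  have h2 := probReal_compl_eq_one_sub (μ := plm) hm
  rw [hc] at h2
  linarith

theorem planes_real {x y : E3} (hx : ‖x‖ = 1) (hy : ‖y‖ = 1) (M : ℕ) :
    (Measure.pi (fun _ : Fin M => plm)).real {ω | ∀ m, x ∈ hs (ω m) ↔ y ∈ hs (ω m)} =
      (1 - ‖x - y‖ / 4) ^ M := by
  have h : {ω : Fin M → E3 × ℝ | ∀ m, x ∈ hs (ω m) ↔ y ∈ hs (ω m)} =
      Set.pi univ (fun _ => {ω : E3 × ℝ | x ∈ hs ω ↔ y ∈ hs ω}) := by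
    ext ω
    simp [Set.mem_pi]
  rw [h, Measure.real, Measure.pi_pi, ENNReal.toReal_prod]
  simp only [Finset.prod_const, Finset.card_univ, Fintype.card_fin]
  congr 1
  exact plane_real hx hy

end Pool.Agent.Helper59.RZ
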